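import Mathlib

namespace Pool.Agent.Results.MP_811a2c_al.TwoSided

/-- The special semidirect product S(M): pairs (subset, element). -/
@[ext] structure SM (M : Type) where
  X : Set M
  x : M

instance (M : Type) [Monoid M] : Monoid (SM M) where
  mul a b := ⟨a.X ∪ (fun y => a.x * y) '' b.X, a.x * b.x⟩
  one := ⟨∅, 1⟩
  mul_assoc a b c := by
    refine SM.ext ?_ (mul_assoc _ _ _)
    change (a.X ∪ _) ∪ (fun y => a.x * b.x * y) '' c.X = a.X ∪ (fun y => a.x * y) '' (b.X ∪ _)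
    rw [Set.image_union, Set.image_image, Set.union_assoc]; simp only [mul_assoc]
  one_mul a := by
    refine SM.ext ?_ (one_mul _)
    change ∅ ∪ (fun y => 1 * y) '' a.X = a.X
    simp
  mul_one a := by
    refine SM.ext ?_ (mul_one _)
    change a.X ∪ _ '' ∅ = a.X
    simp

/-- The congruence generated by H on the free left act S x I. -/
def Gen {S I : Type} [Monoid S] (H : Set ((S × I) × (S × I))) : S × I → S × I → Prop :=
  Relation.EqvGen fun a b => ∃ u : S, ∃ p ∈ H, a = (u * p.1.1, p.1.2) ∧ b = (u * p.2.1, p.2.2)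

/-- Finitely presented left acts. -/
def FP (S A : Type) [Monoid S] [MulAction S A] : Prop :=
  ∃ (k : ℕ) (g : Fin k → A) (H : Set ((S × Fin k) × (S × Fin k))), H.Finite ∧
    (∀ a : A, ∃ s : S, ∃ i, a = s • g i) ∧
    ∀ a b : S × Fin k, a.1 • g a.2 = b.1 • g b.2 ↔ Gen H a b

/-- Left coherent monoids. -/
def LeftCoherent (S : Type) [Monoid S] : Prop :=
  ∀ (A : Type) [MulAction S A], FP S A → ∀ B : SubMulAction S A,
    (∃ T : Set A, T.Finite ∧ ∀ a, a ∈ B ↔ ∃ t ∈ T, ∃ s : S, a = s • t) → FP S B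

/-- Right coherence is left coherence of the opposite monoid: right acts of S are left acts of
the opposite monoid. -/
def RightCoherent (S : Type) [Monoid S] : Prop := LeftCoherent Sᵐᵒᵖ

theorem mul_def {M : Type} [Monoid M] (a b : SM M) :
    a * b = ⟨a.X ∪ (fun y => a.x * y) '' b.X, a.x * b.x⟩ := rfl

theorem e_mul {M : Type} [Monoid M] (W P : Set M) (y : M) :
    (⟨W, 1⟩ : SM M) * ⟨P, y⟩ = ⟨W ∪ P, y⟩ := by simp [mul_def]

/-- The left zero semigroup on the set I. -/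
def LZ (I : Type) : Type := I

instance (I : Type) : Semigroup (LZ I) where
  mul a _ := a
  mul_assoc _ _ _ := rfl

/-- The direct product of the left zero semigroup on I and K, with an identity adjoined. -/
abbrev MM (I K : Type) [Semigroup K] : Type := WithOne (LZ I × K)

variable {I : Type}

def el {K : Type} [Semigroup K] (m : I) (k : K) : MM I K := ((m, k) : LZ I × K)

theorem el_mul {K : Type} [Semigroup K] (m m' : I) (k k' : K) :
    el m k * el m' k' = el m (k * k') := rfl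

theorem el_inj {K : Type} [Semigroup K] {m m' : I} {k k' : K} (h : el m k = el m' k') :
    m = m' ∧ k = k' := Prod.mk.inj (WithOne.coe_inj.1 h)

theorem el_ne {K : Type} [Semigroup K] (m : I) (k : K) : el m k ≠ 1 := WithOne.coe_ne_one

theorem cases_MM {K : Type} [Semigroup K] (x : MM I K) : x = 1 ∨ ∃ m k, x = el m k := by
  induction x using WithOne.recOneCoe with
  | one => exact Or.inl rfl
  | coe a => exact Or.inr ⟨a.1, a.2, rfl⟩

def row {K : Type} [Semigroup K] (m : I) : Set (MM I K) := Set.range (el m)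

theorem row_mul {K : Type} [Semigroup K] {m : I} {y : MM I K} (h : y ∈ row m) (x : MM I K) :
    y * x ∈ row m := by
  obtain ⟨k, rfl⟩ := h
  rcases cases_MM x with rfl | ⟨m', k', rfl⟩
  exacts [⟨k, (mul_one _).symm⟩, ⟨_, (el_mul _ _ _ _).symm⟩]

theorem gen_sound {S I A : Type} [Monoid S] [MulAction S A] (g : I → A)
    {H : Set ((S × I) × (S × I))} (hH : ∀ p ∈ H, p.1.1 • g p.1.2 = p.2.1 • g p.2.2) {a b : S × I}
    (h : Gen H a b) : a.1 • g a.2 = b.1 • g b.2 := by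
  induction h with
  | rel a b h => obtain ⟨u, p, hp, rfl, rfl⟩ := h; simp only [mul_smul, hH p hp]
  | refl => rfl
  | symm _ _ _ ih => exact ih.symm
  | trans _ _ _ _ _ h1 h2 => exact h1.trans h2

theorem row_unique {K : Type} [Semigroup K] {x : MM I K} {m m' : I} (h : x ∈ row m)
    (h' : x ∈ row m') : m = m' := by
  obtain ⟨k, rfl⟩ := h
  obtain ⟨k', h⟩ := h'
  exact (el_inj h).1.symm

theorem exists_rows {K : Type} [Semigroup K] {D : Set (SM (MM I K))} (hD : D.Finite) (i0 : I) :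
    ∃ F : Set I, F.Finite ∧ i0 ∈ F ∧ ∀ d ∈ D, ∀ m, d.x ∈ row m → m ∈ F := by
  refine ⟨insert i0 (⋃ d ∈ D, {m | d.x ∈ row m}), Set.Finite.insert _ (hD.biUnion fun d _ =>
    Set.Subsingleton.finite fun m hm m' hm' => row_unique hm hm'), Or.inl rfl,
    fun d hd m hm => Or.inr (Set.mem_biUnion hd hm)⟩

/-- Left coherence of S((I × K)^1), K a finite semigroup with a left identity. -/
theorem coherent (i0 : I) (K : Type) [Semigroup K] [Finite K] (e0 : K) (he0 : ∀ x : K, e0 * x = x) :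
    LeftCoherent (SM (MM I K)) := by
  rintro A _ ⟨k, g, H, hH, hg, hker⟩ B ⟨T, hT, hB⟩
  obtain ⟨n, b, hb⟩ := hT.fin_param
  replace hb := hb.2
  choose a ι ha using fun j => hg (b j)
  have hHs : ∀ p ∈ H, p.1.1 • g p.1.2 = p.2.1 • g p.2.2 := fun p hp =>
    (hker _ _).2 (Relation.EqvGen.rel _ _ ⟨1, p, hp, by simp, by simp⟩)
  obtain ⟨D, hD, hD1, hD2, hD3⟩ : ∃ D : Set (SM (MM I K)), D.Finite ∧ (∀ p ∈ H, p.1.1 ∈ D) ∧
      (∀ p ∈ H, p.2.1 ∈ D) ∧ ∀ j, a j ∈ D :=
    ⟨(fun p => p.1.1) '' H ∪ (fun p => p.2.1) '' H ∪ Set.range a,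
      ((hH.image _).union (hH.image _)).union (Set.finite_range _),
      fun p hp => Or.inl (Or.inl ⟨p, hp, rfl⟩), fun p hp => Or.inl (Or.inr ⟨p, hp, rfl⟩),
      fun j => Or.inr ⟨j, rfl⟩⟩
  obtain ⟨F, hF, hF0, hN⟩ := exists_rows hD i0
  let Ma : Set (MM I K) := {x | ∀ m, x ∈ row m → m ∈ F}
  have hMa : Ma.Finite := by
    refine ((Set.finite_singleton 1).union
      ((hF.prod (Set.finite_univ (α := K))).image fun p => el p.1 p.2)).subset ?_
    intro x hx
    rcases cases_MM x with rfl | ⟨m, k, rfl⟩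
    exacts [Or.inl rfl, Or.inr ⟨(m, k), ⟨hx m ⟨k, rfl⟩, trivial⟩, rfl⟩]
  have rowu : ∀ {x : MM I K} {m m'}, x ∈ row m → x ∈ row m' → m = m' := by
    rintro x m m' ⟨k, rfl⟩ ⟨k', h⟩; exact (el_inj h).1.symm
  have mulrow : ∀ (y x : MM I K) (m : I), x ∈ Ma → m ∉ F → (y * x ∈ row m ↔ y ∈ row m) := by
    intro y x m hx hm
    refine ⟨fun h => ?_, fun h => row_mul h x⟩
    rcases cases_MM y with rfl | ⟨m', k', rfl⟩
    · rw [one_mul] at h; exact absurd (hx m h) hm
    · exact rowu (row_mul ⟨k', rfl⟩ x) h ▸ ⟨k', rfl⟩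
  have mulMa : ∀ y x : MM I K, x ∈ Ma → (y * x ∈ Ma ↔ y ∈ Ma) := fun y x hx =>
    forall_congr' fun m => ⟨fun h h' => h (row_mul h' x), fun h h' => by
      by_contra hm; exact hm (h ((mulrow y x m hx hm).1 h'))⟩
  have := hD.to_subtype
  have := hMa.to_subtype
  let χ : MM I K → (D → Prop) × (Ma → Prop) := fun x => (fun d => x ∈ d.1.X, fun m => x = m.1)
  let Sat : Set (MM I K) → Prop := fun X => ∀ x x', χ x' = χ x → x ∈ X → x' ∈ X
  have hSat : {X | Sat X}.Finite := by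
    refine (Set.finite_range fun Y : Set _ => χ ⁻¹' Y).subset fun X hX => ⟨χ '' X, ?_⟩
    ext x; exact ⟨fun ⟨x', h, e⟩ => hX _ _ e.symm h, fun h => ⟨x, h, rfl⟩⟩
  have satMa : ∀ X, X ⊆ Ma → Sat X := fun X hX x x' e h => by
    have : x' = x := (congrFun (congrArg Prod.snd e) ⟨x, hX h⟩).mpr rfl
    exact this ▸ h
  have satD : ∀ y ∈ Ma, ∀ d ∈ D, Sat ((fun x => y * x) '' d.X) := by
    intro y hy d hd
    rcases cases_MM y with rfl | ⟨m, k, rfl⟩
    · intro x x' e h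
      simp only [one_mul, Set.image_id'] at h ⊢
      exact (congrFun (congrArg Prod.fst e) ⟨d, hd⟩).mpr h
    · refine satMa _ ?_
      rintro _ ⟨x, -, rfl⟩ m' h
      exact rowu (row_mul ⟨k, rfl⟩ x) h ▸ hy m ⟨k, rfl⟩
  have satU : ∀ X Y, Sat X → Sat Y → Sat (X ∪ Y) := fun X Y h1 h2 x x' e h =>
    h.imp (h1 x x' e) (h2 x x' e)
  let it : Set (MM I K) → Set (MM I K) := fun V => {x | ∀ x', χ x' = χ x → x' ∈ V}
  have it_sub : ∀ V, it V ⊆ V := fun V x h => h x rfl
  have it_sat : ∀ V, Sat (it V) := fun V x x' e h x'' e' => h x'' (e'.trans e)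
  have sub_it : ∀ Z V, Sat Z → Z ⊆ V → Z ⊆ it V := fun Z V h h' x hx x' e => h' (h x x' e hx)
  have it_u : ∀ U C E, Sat C → it ((U ∪ C) ∩ (U ∪ E)) ∪ C = it (U ∪ C) := by
    intro U C E hC
    refine Set.Subset.antisymm (Set.union_subset (fun x h x' e => (h x' e).1)
      (sub_it _ _ hC Set.subset_union_right)) fun x h => ?_
    by_cases hx : x ∈ C
    · exact Or.inr hx
    · refine Or.inl fun x' e => ⟨h x' e, Or.inl ((h x' e).resolve_right fun h' => hx ?_)⟩
      exact hC _ _ e.symm h'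
  clear_value it Sat χ
  have Q1 : ∀ p q : SM (MM I K) × Fin k, Gen H p q → (p.1.x ∈ Ma ↔ q.1.x ∈ Ma) ∧ (p.1.x ∈ Ma →
      (⟨it p.1.X, p.1.x⟩ : SM (MM I K)) • g p.2 = (⟨it q.1.X, q.1.x⟩ : SM (MM I K)) • g q.2 ∧
      ∃ Z, Sat Z ∧ (⟨Z, 1⟩ : SM (MM I K)) • (⟨it p.1.X, p.1.x⟩ : SM (MM I K)) • g p.2 =
        (⟨it p.1.X, p.1.x⟩ : SM (MM I K)) • g p.2 ∧ p.1.X ∪ Z = q.1.X ∪ Z) := by
    intro p q h
    induction h with
    | rel p q h =>
      obtain ⟨u, ⟨⟨c, i⟩, d, j⟩, hp, rfl, rfl⟩ := h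
      have hc : c ∈ D := hD1 _ hp
      have hd : d ∈ D := hD2 _ hp
      simp only [mul_def, mulMa _ _ (hN c hc), mulMa _ _ (hN d hd), true_and]
      intro hy
      have s1 := satD _ hy c hc
      have s2 := satD _ hy d hd
      have e := congrArg ((⟨it ((u.X ∪ (fun x => u.x * x) '' c.X) ∩ (u.X ∪ (fun x => u.x * x) '' d.X)),
        u.x⟩ : SM (MM I K)) • ·) (hHs _ hp)
      simp only [← mul_smul, mul_def] at e
      rw [it_u _ _ _ s1, Set.inter_comm, it_u _ _ _ s2] at e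
      refine ⟨e, _ ∪ _, satU _ _ s1 s2, ?_, by
        simp only [Set.union_assoc, Set.union_self, Set.union_left_comm ((fun x => u.x * x) '' d.X),
          ← Set.union_assoc ((fun x => u.x * x) '' c.X)]⟩
      rw [← e_mul _ _ 1, mul_smul]
      conv_lhs => rw [e, ← mul_smul (SM.mk ((fun x => u.x * x) '' d.X) 1), e_mul,
        Set.union_eq_self_of_subset_left (sub_it _ _ s2 Set.subset_union_right), ← e]
      rw [← mul_smul, e_mul, Set.union_eq_self_of_subset_left (sub_it _ _ s1 Set.subset_union_right)]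
    | refl p => exact ⟨Iff.rfl, fun _ => ⟨rfl, ∅, satMa _ (Set.empty_subset _), one_smul _ _, rfl⟩⟩
    | symm p q _ ih =>
      refine ⟨ih.1.symm, fun h => ?_⟩
      obtain ⟨h1, Z, h2, h3, h4⟩ := ih.2 (ih.1.2 h)
      exact ⟨h1.symm, Z, h2, h1 ▸ h3, h4.symm⟩
    | trans p q r _ _ ih ih' =>
      refine ⟨ih.1.trans ih'.1, fun h => ?_⟩
      obtain ⟨h1, Z, h2, h3, h4⟩ := ih.2 h
      obtain ⟨h1', Z', h2', h3', h4'⟩ := ih'.2 (ih.1.1 h)
      refine ⟨h1.trans h1', Z ∪ Z', satU _ _ h2 h2', ?_, ?_⟩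
      · rw [← h1] at h3'
        rw [← e_mul _ _ 1, mul_smul, h3', h3]
      · rw [← Set.union_assoc, h4, Set.union_right_comm, h4', Set.union_right_comm, Set.union_assoc]
  let o : MM I K := el i0 e0
  let mv : I → SM (MM I K) → SM (MM I K) := fun m s => ⟨(fun x => o * x) '' (s.X ∩ row m), o * s.x⟩
  have mv_mul : ∀ m (u c : SM (MM I K)), u.x ∈ row m → mv m (u * c) = mv m u * c ∧
      (u * c).X \ row m = u.X \ row m := by
    intro m u c hu
    have : (fun y => u.x * y) '' c.X ⊆ row m := by rintro _ ⟨x, -, rfl⟩; exact row_mul hu x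
    refine ⟨SM.ext ?_ (mul_assoc _ _ _).symm, ?_⟩
    · simp only [mv, mul_def]
      rw [Set.union_inter_distrib_right, Set.inter_eq_self_of_subset_left this, Set.image_union,
        Set.image_image]
      simp only [mul_assoc]
    · simp only [mul_def]
      rw [Set.union_sdiff_distrib, Set.sdiff_eq_empty.2 this, Set.union_empty]
  have Q2 : ∀ m, m ∉ F → ∀ p q : SM (MM I K) × Fin k, Gen H p q →
      (p.1.x ∈ row m ↔ q.1.x ∈ row m) ∧ (p.1.x ∈ row m →
      mv m p.1 • g p.2 = mv m q.1 • g q.2 ∧ p.1.X \ row m = q.1.X \ row m) := by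
    intro m hm p q h
    induction h with
    | rel p q h =>
      obtain ⟨u, ⟨⟨c, i⟩, d, j⟩, hp, rfl, rfl⟩ := h
      have e1 := mulrow u.x _ m (hN c (hD1 _ hp)) hm
      have e2 := mulrow u.x _ m (hN d (hD2 _ hp)) hm
      refine ⟨e1.trans e2.symm, fun h => ?_⟩
      have hu := e1.1 h
      simp only [(mv_mul m u _ hu).1, (mv_mul m u _ hu).2, mul_smul, and_true]
      exact congrArg _ (hHs _ hp)
    | refl p => exact ⟨Iff.rfl, fun _ => ⟨rfl, rfl⟩⟩
    | symm p q _ ih => exact ⟨ih.1.symm, fun h => ⟨(ih.2 (ih.1.2 h)).1.symm, (ih.2 (ih.1.2 h)).2.symm⟩⟩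
    | trans p q r _ _ ih ih' =>
      exact ⟨ih.1.trans ih'.1, fun h => ⟨(ih.2 h).1.trans (ih'.2 (ih.1.1 h)).1,
        (ih.2 h).2.trans (ih'.2 (ih.1.1 h)).2⟩⟩
  let S0 : Set (SM (MM I K)) := {s | Sat s.X ∧ s.x ∈ Ma}
  have hS0 : S0.Finite :=
    ((hSat.prod hMa).image fun p => (⟨p.1, p.2⟩ : SM (MM I K))).subset
      fun s hs => ⟨(s.X, s.x), hs, rfl⟩
  let H' : Set ((SM (MM I K) × Fin n) × (SM (MM I K) × Fin n)) :=
    {p | p.1.1 ∈ S0 ∧ p.2.1 ∈ S0 ∧ p.1.1 • b p.1.2 = p.2.1 • b p.2.2}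
  refine ⟨n, fun j => ⟨b j, (hB _).2 ⟨b j, hb ▸ ⟨j, rfl⟩, 1, (one_smul _ _).symm⟩⟩, H',
    ((hS0.prod Set.finite_univ).prod (hS0.prod Set.finite_univ)).subset
      fun p hp => ⟨⟨hp.1, trivial⟩, hp.2.1, trivial⟩, fun x => ?_, fun p q => ⟨fun h => ?_,
      fun h => Subtype.ext (gen_sound b (fun p hp => hp.2.2) h)⟩⟩
  · obtain ⟨t, ht, s, hs⟩ := (hB x).1 x.2
    obtain ⟨j, rfl⟩ := hb ▸ ht
    exact ⟨s, j, Subtype.ext hs⟩
  obtain ⟨s, i⟩ := p
  obtain ⟨t, j⟩ := q
  have h : s • b i = t • b j := congrArg Subtype.val h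
  rw [ha, ha j, ← mul_smul, ← mul_smul] at h
  have hG := (hker (s * a i, ι i) (t * a j, ι j)).1 h
  have step : ∀ (w s t : SM (MM I K)) i j, s ∈ S0 → t ∈ S0 → (s * a i) • g (ι i) = (t * a j) • g (ι j) →
      Gen H' (w * s, i) (w * t, j) := fun w s t i j hs ht h =>
    Relation.EqvGen.rel _ _ ⟨w, ((s, i), (t, j)), ⟨hs, ht, by
      simp only [ha i, ha j, ← mul_smul, h]⟩, rfl, rfl⟩
  by_cases hs : s.x ∈ Ma
  · obtain ⟨h1, h2⟩ := Q1 _ _ hG
    have hs' := (mulMa _ _ (hN _ (hD3 i))).2 hs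
    have ht : t.x ∈ Ma := (mulMa _ _ (hN _ (hD3 j))).1 (h1.1 hs')
    obtain ⟨h3, Z, h4, h5, h6⟩ := h2 hs'
    have fill : ∀ (s : SM (MM I K)) i, s.x ∈ Ma → (⟨it (s * a i).X, s.x⟩ : SM (MM I K)) * a i =
        ⟨it (s * a i).X, (s * a i).x⟩ := fun s i hs => SM.ext (Set.union_eq_self_of_subset_right
          (sub_it _ _ (satD _ hs _ (hD3 i)) Set.subset_union_right)) rfl
    have up : ∀ (s : SM (MM I K)) i, s.x ∈ Ma →
        (⟨Z, 1⟩ : SM (MM I K)) • (⟨it (s * a i).X, (s * a i).x⟩ : SM (MM I K)) • g (ι i) =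
        (⟨it (s * a i).X, (s * a i).x⟩ : SM (MM I K)) • g (ι i) →
        Gen H' (s, i) (⟨(s * a i).X ∪ Z, s.x⟩, i) := by
      intro s i hs h5
      have a1 := step ⟨s.X, 1⟩ ⟨∅, s.x⟩ ⟨(fun y => s.x * y) '' (a i).X, s.x⟩ i i
        ⟨satMa _ (Set.empty_subset _), hs⟩ ⟨satD _ hs _ (hD3 i), hs⟩ (by simp [mul_def])
      have a2 := step ⟨(s * a i).X, 1⟩ ⟨it (s * a i).X, s.x⟩ ⟨Z ∪ it (s * a i).X, s.x⟩ i i
        ⟨it_sat _, hs⟩ ⟨satU _ _ h4 (it_sat _), hs⟩ (by
          rw [← e_mul, mul_assoc, mul_smul (SM.mk Z 1), fill s i hs, h5])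
      rw [e_mul, e_mul, Set.union_empty] at a1
      rw [e_mul, e_mul, Set.union_eq_self_of_subset_right (it_sub _), Set.union_comm Z,
        ← Set.union_assoc, Set.union_eq_self_of_subset_right (it_sub _)] at a2
      exact a1.trans _ _ _ a2
    have a3 := step ⟨(s * a i).X ∪ Z, 1⟩ ⟨it (s * a i).X, s.x⟩ ⟨it (t * a j).X, t.x⟩ i j
      ⟨it_sat _, hs⟩ ⟨it_sat _, ht⟩ (by rw [fill s i hs, fill t j ht]; exact h3)
    rw [e_mul, e_mul, Set.union_eq_self_of_subset_right ((it_sub _).trans Set.subset_union_left)] at a3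
    nth_rewrite 2 [show (s * a i).X ∪ Z = (t * a j).X ∪ Z from h6] at a3
    rw [Set.union_eq_self_of_subset_right ((it_sub _).trans Set.subset_union_left)] at a3
    exact ((up s i hs h5).trans _ _ _ a3).trans _ _ _ ((up t j ht (h3 ▸ h5)).symm _ _)
  · obtain ⟨m, hm, hN'⟩ : ∃ m, s.x ∈ row m ∧ m ∉ F := by
      by_contra hc; push Not at hc; exact hs hc
    obtain ⟨h1, h2⟩ := Q2 m hN' _ _ hG
    have ht : t.x ∈ row m := (mulrow _ _ m (hN _ (hD3 j)) hN').1 (h1.1 (row_mul hm _))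
    obtain ⟨h3, h4⟩ := h2 (row_mul hm _)
    simp only [(mv_mul m _ _ hm).1, (mv_mul m _ _ hm).2, (mv_mul m _ _ ht).1,
      (mv_mul m _ _ ht).2] at h3 h4
    have o0 : ∀ x, o * x ∈ Ma := fun x m' h => rowu (row_mul ⟨e0, rfl⟩ x) h ▸ hF0
    have inS : ∀ s, mv m s ∈ S0 := fun s => ⟨satMa _ (by rintro _ ⟨x, -, rfl⟩; exact o0 x), o0 _⟩
    have back : ∀ x ∈ row m, el m e0 * (o * x) = x := by
      rintro _ ⟨k, rfl⟩; simp [o, el_mul, he0]
    have fin : ∀ s : SM (MM I K), s.x ∈ row m → (⟨s.X \ row m, el m e0⟩ : SM (MM I K)) * mv m s = s := by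
      intro s hs
      refine SM.ext ?_ (back _ hs)
      simp only [mul_def, mv, Set.image_image]
      rw [Set.image_congr (g := id) fun x hx => back x hx.2, Set.image_id, Set.sdiff_union_inter]
    have := step ⟨s.X \ row m, el m e0⟩ _ _ i j (inS s) (inS t) h3
    rw [fin s hm, h4, fin t ht] at this
    exact this

/-- Right coherence of S((I × K)^1), K a finite semigroup with local right identities. -/
theorem rcoherent (i0 : I) (K : Type) [Semigroup K] [Finite K] (he : ∀ c : K, ∃ e, c * e = c) :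
    LeftCoherent (SM (MM I K))ᵐᵒᵖ := by
  rintro A _ ⟨k, g, H, hH, hg, hker⟩ B ⟨T, hT, hB⟩
  obtain ⟨n, b, hb⟩ := hT.fin_param
  replace hb := hb.2
  choose a ι ha using fun j => hg (b j)
  have hHs : ∀ p ∈ H, p.1.1 • g p.1.2 = p.2.1 • g p.2.2 := fun p hp =>
    (hker _ _).2 (Relation.EqvGen.rel _ _ ⟨1, p, hp, by simp, by simp⟩)
  obtain ⟨D, hD, hD1, hD2, hD3⟩ : ∃ D : Set (SM (MM I K)), D.Finite ∧
      (∀ p ∈ H, p.1.1.unop ∈ D) ∧ (∀ p ∈ H, p.2.1.unop ∈ D) ∧ ∀ j, (a j).unop ∈ D :=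
    ⟨(fun p => p.1.1.unop) '' H ∪ (fun p => p.2.1.unop) '' H ∪ Set.range fun j => (a j).unop,
      ((hH.image _).union (hH.image _)).union (Set.finite_range _),
      fun p hp => Or.inl (Or.inl ⟨p, hp, rfl⟩), fun p hp => Or.inl (Or.inr ⟨p, hp, rfl⟩),
      fun j => Or.inr ⟨j, rfl⟩⟩
  obtain ⟨F, hF, hF0, hN⟩ := exists_rows hD i0
  let Ma : Set (MM I K) := {x | ∀ m, x ∈ row m → m ∈ F}
  have hMa : Ma.Finite := by
    refine ((Set.finite_singleton 1).union
      ((hF.prod (Set.finite_univ (α := K))).image fun p => el p.1 p.2)).subset ?_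
    intro x hx
    rcases cases_MM x with rfl | ⟨m, k, rfl⟩
    exacts [Or.inl rfl, Or.inr ⟨(m, k), ⟨hx m ⟨k, rfl⟩, trivial⟩, rfl⟩]
  have rowMa : ∀ {m : I}, m ∈ F → ∀ {z : MM I K}, z ∈ row m → ∀ y, z * y ∈ Ma :=
    fun hm z hz y m' h => row_unique (row_mul hz y) h ▸ hm
  have loc : ∀ z : MM I K, z ∈ Ma → z ≠ 1 → ∃ m ∈ F, z ∈ row m ∧ ∃ w ∈ row m, z * w = z := by
    intro z hz hz1
    rcases cases_MM z with rfl | ⟨m, k, rfl⟩
    · exact absurd rfl hz1
    · obtain ⟨e, hke⟩ := he k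
      exact ⟨m, hz m ⟨k, rfl⟩, ⟨k, rfl⟩, el m e, ⟨e, rfl⟩, by rw [el_mul, hke]⟩
  have := hD.to_subtype
  have := hMa.to_subtype
  let χ : MM I K → (D → Prop) × (Ma → Prop) := fun x => (fun d => x ∈ d.1.X, fun m => x = m.1)
  let Sat : Set (MM I K) → Prop := fun X => ∀ x x', χ x' = χ x → x ∈ X → x' ∈ X
  have hSat : {X | Sat X}.Finite := by
    refine (Set.finite_range fun Y : Set _ => χ ⁻¹' Y).subset fun X hX => ⟨χ '' X, ?_⟩
    ext x; exact ⟨fun ⟨x', h, e⟩ => hX _ _ e.symm h, fun h => ⟨x, h, rfl⟩⟩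
  have satMa : ∀ X, X ⊆ Ma → Sat X := fun X hX x x' e h => by
    have : x' = x := (congrFun (congrArg Prod.snd e) ⟨x, hX h⟩).mpr rfl
    exact this ▸ h
  have satD : ∀ d ∈ D, Sat d.X := fun d hd x x' e h =>
    (congrFun (congrArg Prod.fst e) ⟨d, hd⟩).mpr h
  have satU : ∀ X Y, Sat X → Sat Y → Sat (X ∪ Y) := fun X Y h1 h2 x x' e h =>
    h.imp (h1 x x' e) (h2 x x' e)
  let it : Set (MM I K) → Set (MM I K) := fun V => {x | ∀ x', χ x' = χ x → x' ∈ V}
  have it_sub : ∀ V, it V ⊆ V := fun V x h => h x rfl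
  have it_sat : ∀ V, Sat (it V) := fun V x x' e h x'' e' => h x'' (e'.trans e)
  have sub_it : ∀ Z V, Sat Z → Z ⊆ V → Z ⊆ it V := fun Z V h h' x hx x' e => h' (h x x' e hx)
  have it_u : ∀ U C E, Sat C → C ∪ it ((U ∪ C) ∩ (U ∪ E)) = it (C ∪ U) := by
    intro U C E hC
    refine Set.Subset.antisymm (Set.union_subset (sub_it _ _ hC Set.subset_union_left)
      (fun x h x' e => Set.union_comm _ _ ▸ (h x' e).1)) fun x h => ?_
    by_cases hx : x ∈ C
    · exact Or.inl hx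
    · refine Or.inr fun x' e => ⟨Set.union_comm _ _ ▸ h x' e,
        Or.inl ((h x' e).resolve_left fun h' => hx ?_)⟩
      exact hC _ _ e.symm h'
  clear_value it Sat χ
  let R : A → SM (MM I K) → A := fun x s => MulOpposite.op s • x
  have R_mul : ∀ x s t, R (R x s) t = R x (s * t) := fun x s t => by
    simp only [R, ← mul_smul, ← MulOpposite.op_mul]
  have R_one : ∀ x, R x ⟨∅, 1⟩ = x := fun x => one_smul _ x
  have satE : Sat ∅ := satMa _ (Set.empty_subset _)
  have hb' : ∀ j, b j = R (g (ι j)) (a j).unop := ha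
  let Gt : Fin k → SM (MM I K) → A := fun i s => R (g i) ⟨it s.X, 1⟩
  let Col : Fin k → SM (MM I K) → Prop := fun i s =>
    (∃ Z, Sat Z ∧ R (Gt i s) ⟨Z, 1⟩ = Gt i s ∧ Sat (s.X ∪ Z) ∧ s.x ∈ Ma) ∨
      ∃ m ∈ F, ∃ w ∈ row m, R (Gt i s) ⟨∅, w⟩ = Gt i s
  let Al : Fin k → SM (MM I K) → Fin k → SM (MM I K) → Prop := fun i s j t =>
    s.x = t.x ∧ Gt i s = Gt j t ∧ ∃ Z, Sat Z ∧ R (Gt i s) ⟨Z, 1⟩ = Gt i s ∧ s.X ∪ Z = t.X ∪ Z
  have al_symm : ∀ i s j t, Al i s j t → Al j t i s := by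
    rintro i s j t ⟨h1, h2, Z, h3, h4, h5⟩
    exact ⟨h1.symm, h2.symm, Z, h3, h2 ▸ h4, h5.symm⟩
  have al_trans : ∀ i s j t l r, Al i s j t → Al j t l r → Al i s l r := by
    rintro i s j t l r ⟨h1, h2, Z, h3, h4, h5⟩ ⟨h1', h2', Z', h3', h4', h5'⟩
    refine ⟨h1.trans h1', h2.trans h2', Z ∪ Z', satU _ _ h3 h3', ?_, ?_⟩
    · rw [← h2] at h4'
      rw [← e_mul, ← R_mul, h4, h4']
    · rw [← Set.union_assoc, h5, Set.union_right_comm, h5', Set.union_right_comm, Set.union_assoc]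
  have al_col : ∀ i s j t, Al i s j t → Col j t → Col i s := by
    rintro i s j t ⟨h1, h2, Z, h3, h4, h5⟩ h
    rcases h with ⟨Z', h3', h4', h5', h6'⟩ | ⟨m, hm, w, hw, h⟩
    · refine Or.inl ⟨Z ∪ Z', satU _ _ h3 h3', ?_, ?_, h1 ▸ h6'⟩
      · rw [← h2] at h4'
        rw [← e_mul, ← R_mul, h4, h4']
      · rw [← Set.union_assoc, h5, Set.union_right_comm]
        exact satU _ _ h5' h3
    · exact Or.inr ⟨m, hm, w, hw, by rw [h2, h]⟩
  have colA : ∀ i, ∀ c ∈ D, c.x ≠ 1 → ∀ u, Col i (c * u) := by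
    intro i c hc hc1 u
    obtain ⟨m, hm, hz, -⟩ := loc c.x (hN c hc) hc1
    refine Or.inl ⟨∅, satE, R_one _, ?_, rowMa hm hz _⟩
    rw [Set.union_empty]
    refine satU _ _ (satD c hc) (satMa _ ?_)
    rintro _ ⟨y, -, rfl⟩
    exact rowMa hm hz _
  have colB : ∀ i j, ∀ c ∈ D, ∀ d ∈ D, c.x = 1 → d.x ≠ 1 → R (g i) c = R (g j) d →
      ∀ u, Col i (c * u) := by
    intro i j c hc d hd hc1 hd1 h u
    obtain ⟨m, hm, hz, w, hw, hzw⟩ := loc d.x (hN d hd) hd1
    have hwMa : w ∈ Ma := fun m' h' => row_unique hw h' ▸ hm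
    have hw1 : w ≠ 1 := by obtain ⟨k', rfl⟩ := hw; exact el_ne _ _
    obtain ⟨m', hm', hw', w', hw'', hww⟩ := loc w hwMa hw1
    refine Or.inr ⟨m', hm', w', hw'', ?_⟩
    have e1 : R (g i) c = R (R (g i) c) ⟨∅, w⟩ := by
      rw [h, R_mul]
      congr 1
      refine SM.ext ?_ hzw.symm
      simp [mul_def]
    have e2 : Gt i (c * u) = R (R (g i) c) ⟨it (c * u).X, 1⟩ := by
      simp only [Gt]
      rw [R_mul]
      congr 1
      refine SM.ext ?_ (by simp [mul_def, hc1])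
      have : c.X ⊆ it (c * u).X := sub_it _ _ (satD c hc) Set.subset_union_left
      simp only [mul_def, hc1, one_mul, Set.image_id'] at this ⊢
      exact (Set.union_eq_self_of_subset_left this).symm
    have e3 : ((⟨∅, w⟩ : SM (MM I K)) * ⟨it (c * u).X, 1⟩) * ⟨∅, w'⟩ =
        ⟨∅, w⟩ * ⟨it (c * u).X, 1⟩ := by
      refine SM.ext ?_ ?_
      · simp only [mul_def, Set.image_empty, Set.union_empty]
      · simp only [mul_def, mul_one, hww]
    rw [e2, e1, R_mul (R (g i) c) ⟨∅, w⟩, R_mul (R (g i) c) _ ⟨∅, w'⟩, e3]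
  have Q : ∀ p q : (SM (MM I K))ᵐᵒᵖ × Fin k, Gen H p q → Al p.2 p.1.unop q.2 q.1.unop ∨
      (Col p.2 p.1.unop ∧ Col q.2 q.1.unop) := by
    intro p q h
    induction h with
    | rel p q h =>
      obtain ⟨u, ⟨⟨c, i⟩, d, j⟩, hp, rfl, rfl⟩ := h
      have hc : c.unop ∈ D := hD1 _ hp
      have hd : d.unop ∈ D := hD2 _ hp
      have hcd : R (g i) c.unop = R (g j) d.unop := hHs _ hp
      simp only [MulOpposite.unop_mul]
      generalize c.unop = c at *
      generalize d.unop = d at *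
      generalize u.unop = u at *
      by_cases hc1 : c.x = 1
      · by_cases hd1 : d.x = 1
        · left
          have s1 := satD c hc
          have s2 := satD d hd
          have fc : ∀ V, c * ⟨V, 1⟩ = ⟨c.X ∪ V, 1⟩ := fun V => by simp [mul_def, hc1]
          have fd : ∀ V, d * ⟨V, 1⟩ = ⟨d.X ∪ V, 1⟩ := fun V => by simp [mul_def, hd1]
          have e := congrArg (fun x => R x ⟨it ((u.X ∪ c.X) ∩ (u.X ∪ d.X)), 1⟩) hcd
          simp only [R_mul, fc, fd] at e
          rw [it_u _ _ _ s1, Set.inter_comm, it_u _ _ _ s2] at e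
          have pc : (c * u).X = c.X ∪ u.X := by simp [mul_def, hc1]
          have pd : (d * u).X = d.X ∪ u.X := by simp [mul_def, hd1]
          have e' : Gt i (c * u) = Gt j (d * u) := by
            simp only [Gt, pc, pd]; exact e
          refine ⟨by simp [mul_def, hc1, hd1], e', c.X ∪ d.X, satU _ _ s1 s2, ?_, ?_⟩
          · rw [← e_mul, ← R_mul]
            have h1 : R (Gt i (c * u)) ⟨c.X, 1⟩ = Gt i (c * u) := by
              simp only [Gt]
              rw [R_mul, e_mul, pc, Set.union_eq_self_of_subset_right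
                (sub_it _ _ s1 Set.subset_union_left)]
            have h2 : R (Gt j (d * u)) ⟨d.X, 1⟩ = Gt j (d * u) := by
              simp only [Gt]
              rw [R_mul, e_mul, pd, Set.union_eq_self_of_subset_right
                (sub_it _ _ s2 Set.subset_union_left)]
            rw [h1, e', h2]
          · rw [pc, pd]
            ext x; simp only [Set.mem_union]; tauto
        · exact Or.inr ⟨colB i j c hc d hd hc1 hd1 hcd u, colA j d hd hd1 u⟩
      · by_cases hd1 : d.x = 1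
        · exact Or.inr ⟨colA i c hc hc1 u, colB j i d hd c hc hd1 hc1 hcd.symm u⟩
        · exact Or.inr ⟨colA i c hc hc1 u, colA j d hd hd1 u⟩
    | refl p => exact Or.inl ⟨rfl, rfl, ∅, satE, R_one _, rfl⟩
    | symm p q _ ih => exact ih.imp (al_symm _ _ _ _) And.symm
    | trans p q r _ _ ih ih' =>
      rcases ih with h | h <;> rcases ih' with h' | h'
      · exact Or.inl (al_trans _ _ _ _ _ _ h h')
      · exact Or.inr ⟨al_col _ _ _ _ h h'.1, h'.2⟩
      · exact Or.inr ⟨h.1, al_col _ _ _ _ (al_symm _ _ _ _ h') h.2⟩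
      · exact Or.inr ⟨h.1, h'.2⟩
  let S0 : Set (SM (MM I K)) := {s | Sat s.X ∧ s.x ∈ Ma}
  have hS0 : S0.Finite :=
    ((hSat.prod hMa).image fun p => (⟨p.1, p.2⟩ : SM (MM I K))).subset
      fun s hs => ⟨(s.X, s.x), hs, rfl⟩
  have hS1 : {x : (SM (MM I K))ᵐᵒᵖ | x.unop ∈ S0}.Finite :=
    hS0.preimage MulOpposite.unop_injective.injOn
  let H' : Set (((SM (MM I K))ᵐᵒᵖ × Fin n) × ((SM (MM I K))ᵐᵒᵖ × Fin n)) :=
    {p | p.1.1.unop ∈ S0 ∧ p.2.1.unop ∈ S0 ∧ p.1.1 • b p.1.2 = p.2.1 • b p.2.2}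
  have snd : ∀ p q, Gen H' p q → p.1 • b p.2 = q.1 • b q.2 := fun p q h =>
    gen_sound b (fun p hp => hp.2.2) h
  refine ⟨n, fun j => ⟨b j, (hB _).2 ⟨b j, hb ▸ ⟨j, rfl⟩, 1, (one_smul _ _).symm⟩⟩, H',
    ((hS1.prod Set.finite_univ).prod (hS1.prod Set.finite_univ)).subset
      fun p hp => ⟨⟨hp.1, trivial⟩, hp.2.1, trivial⟩, fun x => ?_, fun p q => ⟨fun h => ?_,
      fun h => Subtype.ext (snd _ _ h)⟩⟩
  · obtain ⟨t, ht, s, hs⟩ := (hB x).1 x.2
    obtain ⟨j, rfl⟩ := hb ▸ ht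
    exact ⟨s, j, Subtype.ext hs⟩
  obtain ⟨s, i⟩ := p
  obtain ⟨t, j⟩ := q
  have h : s • b i = t • b j := congrArg Subtype.val h
  have hG : Gen H (s * a i, ι i) (t * a j, ι j) := by
    refine (hker _ _).1 ?_
    rw [ha, ha j, ← mul_smul, ← mul_smul] at h
    exact h
  obtain ⟨s, rfl⟩ := MulOpposite.op_surjective s
  obtain ⟨t, rfl⟩ := MulOpposite.op_surjective t
  have hQ := Q _ _ hG
  simp only [MulOpposite.unop_mul, MulOpposite.unop_op] at hQ
  have h : R (b i) s = R (b j) t := h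
  have step : ∀ (u s t : SM (MM I K)) i j, s ∈ S0 → t ∈ S0 → R (b i) s = R (b j) t →
      Gen H' (MulOpposite.op (s * u), i) (MulOpposite.op (t * u), j) := fun u s t i j hs ht h =>
    Relation.EqvGen.rel _ _ ⟨MulOpposite.op u, ((MulOpposite.op s, i), (MulOpposite.op t, j)),
      ⟨hs, ht, h⟩, rfl, rfl⟩
  have one0 : (⟨∅, 1⟩ : SM (MM I K)) ∈ S0 := ⟨satE, fun m ⟨k', h⟩ => absurd h (el_ne _ _)⟩
  have oneMa : (1 : MM I K) ∈ Ma := one0.2
  have one_e : ∀ s : SM (MM I K), (⟨∅, 1⟩ : SM (MM I K)) * s = s := fun s => one_mul s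
  -- adding the set of a generator
  have addA : ∀ i s, (a i).unop.x = 1 →
      Gen H' (MulOpposite.op s, i) (MulOpposite.op ((a i).unop * s), i) := by
    intro i s h1
    have := step s ⟨∅, 1⟩ (a i).unop i i one0 ⟨satD _ (hD3 i), h1 ▸ oneMa⟩ (by
      rw [R_one, hb' i, R_mul]
      congr 1
      refine SM.ext ?_ ?_
      · simp [mul_def, h1]
      · simp [mul_def, h1])
    rwa [one_e] at this
  have bG : ∀ i s, (a i).unop.x = 1 → R (b i) ⟨it ((a i).unop * s).X, 1⟩ =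
      Gt (ι i) ((a i).unop * s) := by
    intro i s h1
    rw [hb' i, R_mul]
    simp only [Gt]
    congr 1
    refine SM.ext ?_ (by simp [mul_def, h1])
    have : (a i).unop.X ⊆ it ((a i).unop * s).X :=
      sub_it _ _ (satD _ (hD3 i)) Set.subset_union_left
    simp only [mul_def, h1, one_mul, Set.image_id'] at this ⊢
    exact Set.union_eq_self_of_subset_left this
  have absorb : ∀ s : SM (MM I K), (⟨it s.X, 1⟩ : SM (MM I K)) * s = s := by
    intro s
    obtain ⟨X, x⟩ := s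
    rw [e_mul, Set.union_eq_self_of_subset_left (it_sub _)]
  have addZ : ∀ i s Z, (a i).unop.x = 1 → Sat Z →
      R (Gt (ι i) ((a i).unop * s)) ⟨Z, 1⟩ = Gt (ι i) ((a i).unop * s) →
      Gen H' (MulOpposite.op ((a i).unop * s), i)
        (MulOpposite.op ⟨((a i).unop * s).X ∪ Z, ((a i).unop * s).x⟩, i) := by
    intro i s Z h1 hZ hGZ
    have e1 := step ((a i).unop * s) ⟨it ((a i).unop * s).X, 1⟩ ⟨Z ∪ it ((a i).unop * s).X, 1⟩ i i
      ⟨it_sat _, oneMa⟩ ⟨satU _ _ hZ (it_sat _), oneMa⟩ (by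
        rw [Set.union_comm, ← e_mul, ← R_mul, bG i s h1, hGZ])
    have e2 : (⟨Z ∪ it ((a i).unop * s).X, 1⟩ : SM (MM I K)) * ((a i).unop * s) =
        ⟨((a i).unop * s).X ∪ Z, ((a i).unop * s).x⟩ := by
      have : ((a i).unop * s) = ⟨((a i).unop * s).X, ((a i).unop * s).x⟩ := rfl
      conv_lhs => rw [this]
      rw [e_mul, Set.union_comm Z, Set.union_right_comm,
        Set.union_eq_self_of_subset_left (it_sub _)]
    rw [absorb, e2] at e1
    exact e1
  have red : ∀ i s, Col (ι i) ((a i).unop * s) → ∃ s' ∈ S0,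
      Gen H' (MulOpposite.op s, i) (MulOpposite.op s', i) := by
    intro i s hcol
    by_cases h1 : (a i).unop.x = 1
    · rcases hcol with ⟨Z, hZ, hGZ, hs, hx⟩ | ⟨m, hm, w, hw, hGw⟩
      · exact ⟨⟨((a i).unop * s).X ∪ Z, ((a i).unop * s).x⟩, ⟨hs, hx⟩,
          (addA i s h1).trans _ _ _ (addZ i s Z h1 hZ hGZ)⟩
      · have := step ((a i).unop * s) ⟨it ((a i).unop * s).X, 1⟩
          (⟨it ((a i).unop * s).X, 1⟩ * ⟨∅, w⟩) i i
          ⟨it_sat _, oneMa⟩ ⟨by rw [e_mul, Set.union_empty]; exact it_sat _,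
            by rw [e_mul]; exact fun m' h' => row_unique hw h' ▸ hm⟩ (by
            rw [← R_mul, bG i s h1, hGw])
        rw [absorb, e_mul, Set.union_empty] at this
        refine ⟨_, ⟨satU _ _ (it_sat _) (satMa _ ?_), rowMa hm hw _⟩,
          (addA i s h1).trans _ _ _ this⟩
        rintro _ ⟨y, -, rfl⟩
        exact rowMa hm hw _
    · obtain ⟨m, hm, hz, w, hw, hzw⟩ := loc _ (hN _ (hD3 i)) h1
      have := step s ⟨∅, 1⟩ ⟨∅, w⟩ i i one0 ⟨satE, fun m' h' => row_unique hw h' ▸ hm⟩ (by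
        rw [R_one, hb' i, R_mul]
        congr 1
        refine SM.ext ?_ hzw.symm
        simp [mul_def])
      rw [one_e] at this
      refine ⟨_, ⟨satU _ _ satE (satMa _ ?_), rowMa hm hw _⟩, this⟩
      rintro _ ⟨y, -, rfl⟩
      exact rowMa hm hw _
  have fin : Col (ι i) ((a i).unop * s) → Col (ι j) ((a j).unop * t) →
      Gen H' (MulOpposite.op s, i) (MulOpposite.op t, j) := by
    intro h1 h2
    obtain ⟨s', hs', h3⟩ := red i s h1
    obtain ⟨t', ht', h4⟩ := red j t h2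
    have h5 : Gen H' (MulOpposite.op s', i) (MulOpposite.op t', j) := by
      have := step ⟨∅, 1⟩ s' t' i j hs' ht' ((snd _ _ h3).symm.trans (h.trans (snd _ _ h4)))
      rwa [show s' * (⟨∅, 1⟩ : SM (MM I K)) = s' from mul_one s',
        show t' * (⟨∅, 1⟩ : SM (MM I K)) = t' from mul_one t'] at this
    exact (h3.trans _ _ _ h5).trans _ _ _ (h4.symm _ _)
  rcases hQ with hal | ⟨h1, h2⟩
  · by_cases hi : (a i).unop.x = 1
    · by_cases hj : (a j).unop.x = 1
      · obtain ⟨h1, h2, Z, h3, h4, h5⟩ := hal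
        have u1 := (addA i s hi).trans _ _ _ (addZ i s Z hi h3 h4)
        have u2 := (addA j t hj).trans _ _ _ (addZ j t Z hj h3 (h2 ▸ h4))
        have u3 := step ⟨((a i).unop * s).X ∪ Z, ((a i).unop * s).x⟩
          ⟨it ((a i).unop * s).X, 1⟩ ⟨it ((a j).unop * t).X, 1⟩ i j ⟨it_sat _, oneMa⟩
          ⟨it_sat _, oneMa⟩ (by rw [bG i s hi, bG j t hj, h2])
        rw [e_mul, Set.union_eq_self_of_subset_left ((it_sub _).trans Set.subset_union_left)] at u3
        rw [h5, h1, e_mul,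
          Set.union_eq_self_of_subset_left ((it_sub _).trans Set.subset_union_left)] at u3
        rw [h5, h1] at u1
        exact (u1.trans _ _ _ u3).trans _ _ _ (u2.symm _ _)
      · have c2 := colA (ι j) _ (hD3 j) hj t
        exact fin (al_col _ _ _ _ hal c2) c2
    · have c1 := colA (ι i) _ (hD3 i) hi s
      exact fin c1 (al_col _ _ _ _ (al_symm _ _ _ _ hal) c1)
  · exact fin h1 h2

/-- In a left coherent monoid the kernel of u ↦ u a is a finitely generated left congruence. -/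
theorem ker_fg {S : Type} [Monoid S] (h : LeftCoherent S) (a : S) :
    ∃ H : Set (S × S), H.Finite ∧ (∀ p ∈ H, p.1 * a = p.2 * a) ∧
      ∀ u v, u * a = v * a → Relation.EqvGen
        (fun x y => ∃ w, ∃ p ∈ H, x = w * p.1 ∧ y = w * p.2) u v := by
  obtain ⟨k, g, H, hH, hg, hker⟩ := h S ⟨1, fun _ => 1, ∅, Set.finite_empty,
    fun a => ⟨a, 0, by simp⟩, fun a b => ⟨fun h => by
      have : a = b := Prod.ext (by simpa using h) (Subsingleton.elim _ _)
      exact this ▸ Relation.EqvGen.refl _, gen_sound (A := S) (fun _ => 1) (by simp)⟩⟩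
    ⟨{x | ∃ s, x = s * a}, by rintro c _ ⟨s, rfl⟩; exact ⟨c * s, (mul_assoc _ _ _).symm⟩⟩
    ⟨{a}, Set.finite_singleton a, fun x => by simp; rfl⟩
  have hex : ∀ i, ∃ s, (g i).1 = s * a := fun i => (g i).2
  choose r hr using hex
  obtain ⟨s, i, hs⟩ := hg ⟨a, 1, (one_mul a).symm⟩
  have hs : a = s * (g i).1 := congrArg Subtype.val hs
  refine ⟨insert (1, s * r i) ((fun p => (p.1.1 * r p.1.2, p.2.1 * r p.2.2)) '' H),
    (hH.image _).insert _, ?_, ?_⟩
  · rintro p (rfl | ⟨q, hq, rfl⟩)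
    · show 1 * a = s * r i * a
      rw [mul_assoc, ← hr, ← hs, one_mul]
    · have h1 := (hker q.1 q.2).2 (Relation.EqvGen.rel _ _ ⟨1, q, hq, by simp, by simp⟩)
      have h2 : q.1.1 * (g q.1.2).1 = q.2.1 * (g q.2.2).1 := congrArg Subtype.val h1
      rw [hr, hr, ← mul_assoc, ← mul_assoc] at h2
      exact h2
  · intro u v huv
    have h1 : Gen H (u * s, i) (v * s, i) := by
      refine (hker _ _).1 (Subtype.ext ?_)
      show u * s * (g i).1 = v * s * (g i).1
      rw [mul_assoc, ← hs, mul_assoc, ← hs, huv]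
    have h2 : ∀ p q, Gen H p q → Relation.EqvGen
        (fun x y => ∃ w, ∃ p ∈ insert (1, s * r i)
          ((fun p : (S × Fin k) × (S × Fin k) => (p.1.1 * r p.1.2, p.2.1 * r p.2.2)) '' H),
          x = w * p.1 ∧ y = w * p.2) (p.1 * r p.2) (q.1 * r q.2) := by
      intro p q h
      induction h with
      | rel p q h =>
        obtain ⟨u, p, hp, rfl, rfl⟩ := h
        exact .rel _ _ ⟨u, _, Or.inr ⟨p, hp, rfl⟩, mul_assoc _ _ _, mul_assoc _ _ _⟩
      | refl => exact .refl _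
      | symm _ _ _ ih => exact ih.symm _ _
      | trans _ _ _ _ _ h1 h2 => exact h1.trans _ _ _ h2
    have h3 : ∀ u, Relation.EqvGen
        (fun x y => ∃ w, ∃ p ∈ insert (1, s * r i)
          ((fun p : (S × Fin k) × (S × Fin k) => (p.1.1 * r p.1.2, p.2.1 * r p.2.2)) '' H),
          x = w * p.1 ∧ y = w * p.2) u (u * s * r i) := fun u =>
      .rel _ _ ⟨u, _, Or.inl rfl, (mul_one _).symm, mul_assoc _ _ _⟩
    exact ((h3 u).trans _ _ _ (h2 _ _ h1)).trans _ _ _ ((h3 v).symm _ _)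

theorem not_coh {S : Type} [Monoid S] (a : S)
    (h : ∀ H : Set (S × S), H.Finite → (∀ p ∈ H, p.1 * a = p.2 * a) →
      ∃ (P : S → Prop) (u v : S), u * a = v * a ∧ P u ∧ ¬ P v ∧
        ∀ w, ∀ p ∈ H, (P (w * p.1) ↔ P (w * p.2))) : ¬ LeftCoherent S := by
  intro hS
  obtain ⟨H, hH, h1, h2⟩ := ker_fg hS a
  obtain ⟨P, u, v, h3, h4, h5, h6⟩ := h H hH h1
  have key : ∀ x y, Relation.EqvGen
      (fun x y => ∃ w, ∃ p ∈ H, x = w * p.1 ∧ y = w * p.2) x y → (P x ↔ P y) := by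
    intro x y h
    induction h with
    | rel x y h => obtain ⟨w, p, hp, rfl, rfl⟩ := h; exact h6 w p hp
    | refl => rfl
    | symm _ _ _ ih => exact ih.symm
    | trans _ _ _ _ _ h1 h2 => exact h1.trans h2
  exact h5 ((key _ _ (h2 u v h3)).1 h4)

/-- If some c in K is not in c K, then S((I × K)^1) is not right coherent. -/
theorem not_right (I K : Type) [Infinite I] [Semigroup K] (c : K) (hc : ∀ e, c * e ≠ c) :
    ¬ RightCoherent (SM (MM I K)) := by
  obtain ⟨i0⟩ : Nonempty I := inferInstance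
  refine not_coh (MulOpposite.op ⟨∅, el i0 c⟩) fun H hH hHa => ?_
  obtain ⟨F, hF, -, hN⟩ := exists_rows
    (D := (fun p => p.1.unop) '' H ∪ (fun p => p.2.unop) '' H)
    ((hH.image _).union (hH.image _)) i0
  obtain ⟨m, hm⟩ := hF.exists_notMem
  obtain ⟨m', hm'⟩ := (Set.finite_singleton m).exists_notMem
  refine ⟨fun s => s.unop.x ∈ row m, MulOpposite.op ⟨∅, el m c⟩, MulOpposite.op ⟨∅, el m' c⟩,
    ?_, ⟨c, rfl⟩, ?_, ?_⟩
  · refine MulOpposite.unop_injective ?_
    refine SM.ext ?_ rfl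
    simp [mul_def]
  · rintro ⟨k, hk⟩
    exact hm' (el_inj hk).1.symm
  · have one_iff : ∀ s t : SM (MM I K), (⟨∅, el i0 c⟩ : SM (MM I K)) * s = ⟨∅, el i0 c⟩ * t →
        s.x = 1 → t.x = 1 := by
      rintro ⟨X, x⟩ ⟨Y, y⟩ h (rfl : x = 1)
      have h' : el i0 c * 1 = el i0 c * y := congrArg SM.x h
      rcases cases_MM y with rfl | ⟨m2, k2, rfl⟩
      · rfl
      · rw [mul_one, el_mul] at h'
        exact absurd (el_inj h').2.symm (hc k2)
    have no : ∀ s t : SM (MM I K), (∀ m, s.x ∈ row m → m ∈ F) → s.x ≠ 1 →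
        (s * t).x ∉ row m := by
      intro s t hs hs1 h
      rcases cases_MM s.x with h1 | ⟨m1, k1, h1⟩
      · exact hs1 h1
      · have hr : s.x ∈ row m1 := ⟨k1, h1.symm⟩
        exact hm (row_unique (row_mul hr t.x) h ▸ hs _ hr)
    intro w p hp
    have e := hHa p hp
    have e : (⟨∅, el i0 c⟩ : SM (MM I K)) * p.1.unop = ⟨∅, el i0 c⟩ * p.2.unop :=
      congrArg MulOpposite.unop e
    by_cases h1 : p.1.unop.x = 1
    · have h2 := one_iff _ _ e h1
      have e1 : (w * p.1).unop.x = w.unop.x := by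
        rw [MulOpposite.unop_mul, mul_def, h1, one_mul]
      have e2 : (w * p.2).unop.x = w.unop.x := by
        rw [MulOpposite.unop_mul, mul_def, h2, one_mul]
      show (w * p.1).unop.x ∈ row m ↔ (w * p.2).unop.x ∈ row m
      rw [e1, e2]
    · have h2 : p.2.unop.x ≠ 1 := fun h2 => h1 (one_iff _ _ e.symm h2)
      exact iff_of_false (no _ _ (hN _ (Or.inl ⟨p, hp, rfl⟩)) h1)
        (no _ _ (hN _ (Or.inr ⟨p, hp, rfl⟩)) h2)

/-- A source of failure of left coherence. -/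
theorem not_left_aux (I K : Type) [Infinite I] [Semigroup K] (t c k' : K)
    (ht : ∀ a b, a * b ≠ t) (hc : ∀ k, k * c ≠ c) (hk : k' ≠ t) (htc : t * c = k' * c) :
    ¬ LeftCoherent (SM (MM I K)) := by
  obtain ⟨i0⟩ : Nonempty I := inferInstance
  refine not_coh ⟨∅, el i0 c⟩ fun H hH hHa => ?_
  obtain ⟨F, hF, -, hN⟩ := exists_rows
    (D := (fun p => p.1) '' H ∪ (fun p => p.2) '' H) ((hH.image _).union (hH.image _)) i0
  obtain ⟨m, hm⟩ := hF.exists_notMem
  refine ⟨fun s => s.x = el m t, ⟨∅, el m t⟩, ⟨∅, el m k'⟩, ?_, rfl, ?_, ?_⟩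
  · refine SM.ext ?_ ?_
    · simp [mul_def]
    · show el m t * el i0 c = el m k' * el i0 c
      rw [el_mul, el_mul, htc]
  · intro h
    exact hk (el_inj h).2
  · have one_iff : ∀ s u : SM (MM I K), s * (⟨∅, el i0 c⟩ : SM (MM I K)) = u * ⟨∅, el i0 c⟩ →
        s.x = 1 → u.x = 1 := by
      rintro ⟨X, x⟩ ⟨Y, y⟩ h (rfl : x = 1)
      have h' : 1 * el i0 c = y * el i0 c := congrArg SM.x h
      rcases cases_MM y with rfl | ⟨m2, k2, rfl⟩
      · rfl
      · rw [one_mul, el_mul] at h'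
        exact absurd (el_inj h').2.symm (hc k2)
    have no : ∀ s u : SM (MM I K), (∀ m, s.x ∈ row m → m ∈ F) → s.x ≠ 1 →
        (u * s).x ≠ el m t := by
      rintro ⟨X, x⟩ ⟨Y, y⟩ hs hs1 h
      have h' : y * x = el m t := h
      rcases cases_MM x with rfl | ⟨m1, k1, rfl⟩
      · exact hs1 rfl
      · rcases cases_MM y with rfl | ⟨m2, k2, rfl⟩
        · rw [one_mul] at h'
          exact hm ((el_inj h').1 ▸ hs m1 ⟨k1, rfl⟩)
        · rw [el_mul] at h'
          exact ht _ _ (el_inj h').2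
    intro w p hp
    have e := hHa p hp
    by_cases h1 : p.1.x = 1
    · have h2 := one_iff _ _ e h1
      have e1 : (w * p.1).x = w.x := by rw [mul_def, h1, mul_one]
      have e2 : (w * p.2).x = w.x := by rw [mul_def, h2, mul_one]
      show (w * p.1).x = el m t ↔ (w * p.2).x = el m t
      rw [e1, e2]
    · have h2 : p.2.x ≠ 1 := fun h2 => h1 (one_iff _ _ e.symm h2)
      exact iff_of_false (no _ _ (hN _ (Or.inl ⟨p, hp, rfl⟩)) h1)
        (no _ _ (hN _ (Or.inr ⟨p, hp, rfl⟩)) h2)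

/-- The powers of t: pw t n is t to the power n + 1. -/
def pw {K : Type} [Semigroup K] (t : K) : ℕ → K
  | 0 => t
  | n + 1 => t * pw t n

theorem pw_mul {K : Type} [Semigroup K] (t : K) (a b : ℕ) :
    pw t a * pw t b = pw t (a + b + 1) := by
  induction a with
  | zero => rw [Nat.zero_add]; rfl
  | succ a ih =>
    rw [show a + 1 + b + 1 = (a + b + 1) + 1 by omega]
    show t * pw t a * pw t b = t * pw t (a + b + 1)
    rw [mul_assoc, ih]

theorem exists_pair {K : Type} [Semigroup K] [Finite K] (t : K) (ht : ∀ a b, a * b ≠ t) :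
    ∃ c k' : K, (∀ k, k * c ≠ c) ∧ k' ≠ t ∧ t * c = k' * c := by
  have hex : ∃ n : ℕ, ∃ k' : K, k' ≠ t ∧ t * pw t n = k' * pw t n := by
    obtain ⟨x, y, hxy, he⟩ := Finite.exists_ne_map_eq_of_infinite (pw t)
    wlog hlt : x < y generalizing x y
    · exact this y x hxy.symm he.symm (by omega)
    obtain ⟨d, rfl⟩ : ∃ d, y = x + d + 1 := ⟨y - x - 1, by omega⟩
    cases x with
    | zero => exact absurd he.symm (ht t (pw t (0 + d)))
    | succ x =>
      refine ⟨x, pw t (d + 1), ht t (pw t d), ?_⟩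
      rw [pw_mul, show d + 1 + x + 1 = x + 1 + d + 1 by omega, ← he]
      rfl
  classical
  obtain ⟨k', hk', h⟩ := Nat.find_spec hex
  refine ⟨pw t (Nat.find hex), k', ?_, hk', h⟩
  intro k hk
  generalize hn : Nat.find hex = n at *
  cases n with
  | zero => exact ht _ _ hk
  | succ n =>
    have h1 : k * (t * pw t n) = t * pw t n := hk
    refine Nat.find_min hex (m := n) (by omega) ⟨k * t, ht _ _, ?_⟩
    rw [mul_assoc, h1]

/-- The null semigroup with two elements. -/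
inductive K2 : Type
  | t | f

instance : Semigroup K2 where
  mul _ _ := K2.f
  mul_assoc _ _ _ := rfl

instance : Finite K2 :=
  Finite.of_injective (β := Bool) (fun x => match x with | .t => true | .f => false)
    (by rintro (_ | _) (_ | _) h <;> simp_all)

theorem general (I K : Type) [Infinite I] [Semigroup K] [Finite K] :
    (RightCoherent (SM (MM I K)) ↔ ∀ c : K, ∃ e : K, c * e = c) ∧
    ((∃ e : K, ∀ x : K, e * x = x) → LeftCoherent (SM (MM I K))) ∧
    ((∃ t : K, ∀ a b : K, a * b ≠ t) →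
      ¬ LeftCoherent (SM (MM I K)) ∧ ¬ RightCoherent (SM (MM I K))) ∧
    ∃ (N : Type) (_ : Monoid N), LeftCoherent (SM N) ∧ RightCoherent (SM N) ∧
      ∃ f : SM (MM I K) →* SM N, Function.Injective f := by
  obtain ⟨i0⟩ : Nonempty I := inferInstance
  refine ⟨⟨fun h => ?_, rcoherent i0 K⟩, fun ⟨e, he⟩ => coherent i0 K e he, fun ⟨t, ht⟩ => ?_, ?_⟩
  · by_contra hcon
    push Not at hcon
    obtain ⟨c, hc⟩ := hcon
    exact not_right I K c hc h
  · obtain ⟨c, k', h1, h2, h3⟩ := exists_pair t ht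
    exact ⟨not_left_aux I K t c k' ht h1 h2 h3, not_right I K t (ht t)⟩
  · have : Finite (WithOne K) := inferInstanceAs (Finite (Option K))
    let φ : MM I K →* MM I (WithOne K) :=
      WithOne.mapMulHom (MulHom.prodMap (MulHom.id _) WithOne.coeMulHom)
    have hφ : Function.Injective φ := by
      intro x y h
      rcases cases_MM x with rfl | ⟨m1, k1, rfl⟩ <;> rcases cases_MM y with rfl | ⟨m2, k2, rfl⟩
      · rfl
      · exact absurd (h.symm.trans (map_one φ)) (el_ne m2 (k2 : WithOne K))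
      · exact absurd (h.trans (map_one φ)) (el_ne m1 (k1 : WithOne K))
      · obtain ⟨rfl, h2⟩ :=
          el_inj (show el m1 (k1 : WithOne K) = el m2 (k2 : WithOne K) from h)
        rw [WithOne.coe_inj.1 h2]
    refine ⟨MM I (WithOne K), inferInstance, coherent i0 _ 1 one_mul,
      rcoherent i0 _ fun c => ⟨1, mul_one c⟩,
      ⟨⟨⟨fun s => ⟨φ '' s.X, φ s.x⟩, ?_⟩, fun s t => ?_⟩, fun s t h => ?_⟩⟩
    · exact SM.ext (Set.image_empty _) (map_one φ)
    · simp only [mul_def, Set.image_union, Set.image_image, map_mul]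
    · exact SM.ext (hφ.image_injective (congrArg SM.X h)) (hφ (congrArg SM.x h))

/-- There are M and T with S(M) neither left nor right coherent and embedded in T, which is both
left and right coherent; and, for every infinite set I and finite semigroup K, the monoid
M = (I × K)^1 (I with left zero multiplication): S(M) is right coherent exactly when every c in K
lies in cK, it is left coherent if K has a left identity, it is neither left nor right coherent if
K K is not K, and it embeds in some left and right coherent S(N). -/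
theorem result :
    (∃ (M T : Type) (_ : Monoid M) (_ : Monoid T),
      ¬ LeftCoherent (SM M) ∧ ¬ RightCoherent (SM M) ∧ LeftCoherent T ∧ RightCoherent T ∧
      ∃ f : SM M →* T, Function.Injective f) ∧
    ∀ (I K : Type) [Infinite I] [Semigroup K] [Finite K],
      (RightCoherent (SM (MM I K)) ↔ ∀ c : K, ∃ e : K, c * e = c) ∧
      ((∃ e : K, ∀ x : K, e * x = x) → LeftCoherent (SM (MM I K))) ∧
      ((∃ t : K, ∀ a b : K, a * b ≠ t) →
        ¬ LeftCoherent (SM (MM I K)) ∧ ¬ RightCoherent (SM (MM I K))) ∧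
      ∃ (N : Type) (_ : Monoid N), LeftCoherent (SM N) ∧ RightCoherent (SM N) ∧
        ∃ f : SM (MM I K) →* SM N, Function.Injective f := by
  refine ⟨?_, fun I K _ _ _ => general I K⟩
  obtain ⟨-, -, h1, N, hN, h2, h3, f, hf⟩ := general ℕ K2
  have h4 := h1 ⟨K2.t, fun a b h => by
    have : K2.f = K2.t := h
    cases this⟩
  exact ⟨MM ℕ K2, SM N, inferInstance, inferInstance, h4.1, h4.2, h2, h3, f, hf⟩

end Pool.Agent.Results.MP_811a2c_al.TwoSided
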